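import Pool.Agent.H102R3.FR.Stmts

set_option linter.unusedSectionVars false

/-! Frog model project H102-FR (MP_82094e_pr), task REV. -/

namespace Pool.Agent.H646R3.FRRev

open Pool.Agent.H102R3.FR Finset

variable {V : Type} [Fintype V] [DecidableEq V] (G : SimpleGraph V) [DecidableRel G.Adj]
  (A : Finset V)

lemma stay_off {j : ℕ} {x : V} (h : x ∉ A) : stay G A j x = 0 := by
  cases j <;> simp [stay, h]

lemma stay_zero {x : V} (h : x ∈ A) : stay G A 0 x = 1 := by simp [stay, h]

lemma stay_succ (hd : ∀ x, 0 < G.degree x) {j : ℕ} {x : V} (h : x ∈ A) :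
    (G.degree x : ℝ) * stay G A (j + 1) x = ∑ y ∈ G.neighborFinset x, stay G A j y := by
  have h1 : (G.degree x : ℝ) ≠ 0 := by exact_mod_cast (hd x).ne'
  simp only [stay, if_pos h]
  field_simp

lemma stay_nonneg (j : ℕ) (x : V) : 0 ≤ stay G A j x := by
  induction j generalizing x with
  | zero => simp only [stay]; split_ifs <;> norm_num
  | succ j ih =>
    simp only [stay]
    split_ifs
    · exact div_nonneg (sum_nonneg fun y _ => ih y) (Nat.cast_nonneg _)
    · exact le_rfl

lemma stay_le_one (hd : ∀ x, 0 < G.degree x) (j : ℕ) (x : V) : stay G A j x ≤ 1 := by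
  induction j generalizing x with
  | zero => simp only [stay]; split_ifs <;> norm_num
  | succ j ih =>
    simp only [stay]
    split_ifs
    · have h1 : (0 : ℝ) < G.degree x := by exact_mod_cast hd x
      rw [div_le_one h1]
      calc ∑ y ∈ G.neighborFinset x, stay G A j y ≤ ∑ y ∈ G.neighborFinset x, (1 : ℝ) :=
            sum_le_sum fun y _ => ih y
        _ = G.degree x := by simp
    · exact zero_le_one

lemma stay_anti_succ (hd : ∀ x, 0 < G.degree x) (j : ℕ) (x : V) :
    stay G A (j + 1) x ≤ stay G A j x := by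
  induction j generalizing x with
  | zero =>
    by_cases h : x ∈ A
    · rw [stay_zero G A h]
      exact stay_le_one G A hd 1 x
    · rw [stay_off G A h, stay_off G A h]
  | succ j ih =>
    by_cases h : x ∈ A
    · simp only [stay, if_pos h]
      refine div_le_div_of_nonneg_right (sum_le_sum fun y _ => ?_) (Nat.cast_nonneg _)
      exact ih y
    · rw [stay_off G A h, stay_off G A h]

lemma stay_anti (hd : ∀ x, 0 < G.degree x) (x : V) : Antitone (fun j => stay G A j x) :=
  antitone_nat_of_succ_le fun j => stay_anti_succ G A hd j x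

/-- the bilinear form -/
noncomputable def T (i j : ℕ) : ℝ := ∑ x ∈ A, (G.degree x : ℝ) * (stay G A i x * stay G A j x)

lemma T_eq1 (hd : ∀ x, 0 < G.degree x) (i j : ℕ) :
    T G A (i + 1) j = ∑ x, ∑ y, if G.Adj x y then stay G A i y * stay G A j x else 0 := by
  have h1 : ∀ x, (∑ y, if G.Adj x y then stay G A i y * stay G A j x else 0) =
      (∑ y ∈ G.neighborFinset x, stay G A i y) * stay G A j x := by
    intro x
    rw [sum_mul, ← sum_filter]
    refine sum_congr ?_ fun _ _ => rfl
    ext y
    simp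
  simp_rw [h1]
  rw [← sum_subset (subset_univ A)]
  · refine sum_congr rfl fun x hx => ?_
    rw [← stay_succ G A hd hx]
    ring
  · intro x _ hx
    rw [stay_off G A hx, mul_zero]

lemma T_comm (i j : ℕ) : T G A i j = T G A j i :=
  sum_congr rfl fun x _ => by ring

lemma T_sa (hd : ∀ x, 0 < G.degree x) (i j : ℕ) : T G A (i + 1) j = T G A i (j + 1) := by
  rw [T_comm G A i (j + 1), T_eq1 G A hd, T_eq1 G A hd, sum_comm]
  refine sum_congr rfl fun x _ => sum_congr rfl fun y _ => ?_
  by_cases h : G.Adj x y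
  · rw [if_pos h, if_pos h.symm, mul_comm]
  · rw [if_neg h, if_neg (fun h' => h h'.symm)]

/-- total mass -/
noncomputable def c (j : ℕ) : ℝ := ∑ x ∈ A, (G.degree x : ℝ) * stay G A j x

lemma T_add (hd : ∀ x, 0 < G.degree x) (i j : ℕ) : T G A i j = c G A (i + j) := by
  induction i generalizing j with
  | zero =>
    rw [zero_add]
    refine sum_congr rfl fun x hx => ?_
    rw [stay_zero G A hx, one_mul]
  | succ i ih =>
    rw [T_sa G A hd, ih]
    congr 1
    omega

lemma c_anti (hd : ∀ x, 0 < G.degree x) : Antitone (c G A) := by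
  intro i j hij
  exact sum_le_sum fun x _ => mul_le_mul_of_nonneg_left (stay_anti G A hd x hij) (Nat.cast_nonneg _)

lemma D_anti (hd : ∀ x, 0 < G.degree x) : Antitone (fun j => c G A j - c G A (j + 1)) := by
  have h1 : ∀ j, c G A j - c G A (j + 1) =
      ∑ x ∈ A, (G.degree x : ℝ) * ((stay G A 0 x - stay G A 1 x) * stay G A j x) := by
    intro j
    have e0 := T_add G A hd 0 j
    have e1 := T_add G A hd 1 j
    rw [zero_add] at e0
    rw [add_comm 1 j] at e1
    rw [← e0, ← e1, T, T, ← sum_sub_distrib]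
    refine sum_congr rfl fun x _ => ?_
    ring
  intro i j hij
  simp only
  rw [h1, h1]
  refine sum_le_sum fun x _ => mul_le_mul_of_nonneg_left ?_ (Nat.cast_nonneg _)
  exact mul_le_mul_of_nonneg_left (stay_anti G A hd x hij)
    (sub_nonneg.2 (stay_anti_succ G A hd 0 x))

lemma block (hd : ∀ x, 0 < G.degree x) (a b u : ℕ) (hab : a ≤ b) :
    c G A b - c G A (b + u) ≤ c G A a - c G A (a + u) := by
  induction u with
  | zero => simp
  | succ u ih =>
    have h := D_anti G A hd (Nat.add_le_add_right hab u)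
    simp only at h
    rw [← add_assoc, ← add_assoc]
    linarith

lemma block3 (hd : ∀ x, 0 < G.degree x) (u : ℕ) :
    3 * (c G A (4 * u) - c G A (5 * u)) ≤ c G A u - c G A (4 * u) := by
  have h1 := block G A hd u (4 * u) u (by omega)
  have h2 := block G A hd (2 * u) (4 * u) u (by omega)
  have h3 := block G A hd (3 * u) (4 * u) u (by omega)
  rw [show u + u = 2 * u by ring] at h1
  rw [show 2 * u + u = 3 * u by ring] at h2
  rw [show 3 * u + u = 4 * u by ring] at h3
  rw [show 4 * u + u = 5 * u by ring] at h1 h2 h3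
  linarith

theorem taskRev : TaskRev := by
  intro V _ _ G _ hd A Θ s k hs hΘ hhalf
  have key : ∀ i < k, ∑ x ∈ Θ, stay G A (s * 4 ^ k) x ≤
      (2 / 3) * (c G A (s * 4 ^ i) - c G A (s * 4 ^ (i + 1))) := by
    intro i hi
    set u := s * 4 ^ i with hu
    have hsu : s ≤ u := Nat.le_mul_of_pos_right _ (by positivity)
    have h4u : s * 4 ^ (i + 1) = 4 * u := by rw [hu]; ring
    have hle : 4 * u ≤ s * 4 ^ k := by
      rw [← h4u]
      exact Nat.mul_le_mul_left _ (Nat.pow_le_pow_right (by norm_num) hi)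
    have h1 : ∑ x ∈ Θ, stay G A (s * 4 ^ k) x ≤
        ∑ x ∈ Θ, 2 * ((G.degree x : ℝ) * ((1 - stay G A u x) * stay G A (4 * u) x)) := by
      refine sum_le_sum fun x hx => ?_
      have a1 : stay G A (s * 4 ^ k) x ≤ stay G A (4 * u) x := stay_anti G A hd x hle
      have a2 : stay G A u x ≤ 1 / 2 := (stay_anti G A hd x hsu).trans (hhalf x hx)
      have a3 := stay_nonneg G A (4 * u) x
      have a4 : (1 : ℝ) ≤ G.degree x := by exact_mod_cast hd x
      have a5 : (1 / 2 : ℝ) * stay G A (4 * u) x ≤ (1 - stay G A u x) * stay G A (4 * u) x :=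
        mul_le_mul_of_nonneg_right (by linarith) a3
      have a6 : 0 ≤ (1 - stay G A u x) * stay G A (4 * u) x := by linarith [mul_nonneg (by norm_num : (0:ℝ) ≤ 1 / 2) a3]
      have a7 : 1 * ((1 - stay G A u x) * stay G A (4 * u) x) ≤
          (G.degree x : ℝ) * ((1 - stay G A u x) * stay G A (4 * u) x) :=
        mul_le_mul_of_nonneg_right a4 a6
      linarith
    have h2 : ∑ x ∈ Θ, 2 * ((G.degree x : ℝ) * ((1 - stay G A u x) * stay G A (4 * u) x)) ≤
        ∑ x ∈ A, 2 * ((G.degree x : ℝ) * ((1 - stay G A u x) * stay G A (4 * u) x)) := by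
      refine sum_le_sum_of_subset_of_nonneg hΘ fun x _ _ => ?_
      have a1 := stay_le_one G A hd u x
      have a2 := stay_nonneg G A (4 * u) x
      have a3 : 0 ≤ (1 - stay G A u x) * stay G A (4 * u) x := mul_nonneg (by linarith) a2
      positivity
    have h3 : ∑ x ∈ A, 2 * ((G.degree x : ℝ) * ((1 - stay G A u x) * stay G A (4 * u) x)) =
        2 * (c G A (4 * u) - c G A (5 * u)) := by
      have e1 := T_add G A hd u (4 * u)
      rw [show u + 4 * u = 5 * u by ring] at e1
      rw [← e1, c, T, ← sum_sub_distrib, mul_sum]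
      refine sum_congr rfl fun x _ => ?_
      ring
    have h4 := block3 G A hd u
    rw [h4u]
    linarith
  have hsum : (k : ℝ) * ∑ x ∈ Θ, stay G A (s * 4 ^ k) x ≤
      (2 / 3) * (c G A s - c G A (s * 4 ^ k)) := by
    have h1 : ∑ i ∈ range k, ∑ x ∈ Θ, stay G A (s * 4 ^ k) x ≤
        ∑ i ∈ range k, (2 / 3) * (c G A (s * 4 ^ i) - c G A (s * 4 ^ (i + 1))) :=
      sum_le_sum fun i hi => key i (mem_range.1 hi)
    rw [sum_const, card_range, nsmul_eq_mul, ← mul_sum,
      sum_range_sub' (fun i => c G A (s * 4 ^ i))] at h1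
    simpa using h1
  have hc0 : c G A s ≤ c G A 0 := c_anti G A hd (Nat.zero_le s)
  have hc1 : c G A (s * 4 ^ k) ≤ c G A s :=
    c_anti G A hd (Nat.le_mul_of_pos_right _ (by positivity))
  have hesc : esc G A (s * 4 ^ k) = c G A 0 - c G A (s * 4 ^ k) := by
    rw [esc, c, c, ← sum_sub_distrib]
    refine sum_congr rfl fun x hx => ?_
    rw [stay_zero G A hx]
    ring
  rw [hesc]
  linarith

end Pool.Agent.H646R3.FRRev
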