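import Pool.Agent.H740R3.BQStmts

set_option autoImplicit false

/-! Project H740-BQ (MP_7da968_an), task T3a: the functionals. -/

open Filter Topology

namespace Pool.Agent.H646R3.BQT3a

open Pool.Agent.H740R3.BQ

lemma cs_tendsto (d : ℕ) (p : ℕ → ℂ) (h0 : ∀ k : ℕ,
    Tendsto (fun ν : ℕ => dl p (ν ^ (2 * d)) k) atTop (𝓝 (dinf (p 0) k))) (k : ℕ) :
    Tendsto (fun ν : ℕ => cs (dl p (ν ^ (2 * d))) k) atTop (𝓝 (cs (dinf (p 0)) k)) := by
  unfold cs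
  exact tendsto_finsetSum _ fun j _ => (h0 j).mul (h0 (k - j))

lemma KM_tendsto (d : ℕ) (p : ℕ → ℂ) (h0 : ∀ k : ℕ,
    Tendsto (fun ν : ℕ => dl p (ν ^ (2 * d)) k) atTop (𝓝 (dinf (p 0) k))) :
    Tendsto (fun ν : ℕ => KM d (dl p (ν ^ (2 * d)))) atTop (𝓝 (KM d (dinf (p 0)))) := by
  refine tendsto_pi_nhds.2 fun i => tendsto_pi_nhds.2 fun k => ?_
  unfold KM
  split_ifs
  · exact tendsto_const_nhds
  · exact tendsto_const_nhds
  · exact h0 _
  · exact tendsto_const_nhds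
  · exact cs_tendsto d p h0 _
  · exact tendsto_const_nhds

lemma inv_tendsto {n : ℕ} (K : ℕ → Matrix (Fin n) (Fin n) ℂ) (K0 : Matrix (Fin n) (Fin n) ℂ)
    (h : Tendsto K atTop (𝓝 K0)) (hdet : K0.det ≠ 0) :
    (∀ᶠ ν in atTop, (K ν).det ≠ 0) ∧ Tendsto (fun ν => (K ν)⁻¹) atTop (𝓝 K0⁻¹) := by
  have h1 : Tendsto (fun ν => (K ν).det) atTop (𝓝 K0.det) :=
    ((continuous_id.matrix_det).tendsto K0).comp h
  have h2 : Tendsto (fun ν => (K ν).adjugate) atTop (𝓝 K0.adjugate) :=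
    ((continuous_id.matrix_adjugate).tendsto K0).comp h
  refine ⟨h1.eventually_ne hdet, ?_⟩
  simp_rw [Matrix.inv_def, Ring.inverse_eq_inv']
  exact (h1.inv₀ hdet).smul h2

theorem t3a : T3a := by
  intro hT0 d p c hd hc hdet
  have h0 := hT0 d p hd
  obtain ⟨h1, h2⟩ := inv_tendsto _ _ (KM_tendsto d p h0) hdet
  set K : ℕ → Matrix (Fin (6 * d + 6)) (Fin (6 * d + 6)) ℂ :=
    fun ν => KM d (dl p (ν ^ (2 * d))) with hK
  set M : ℝ := ∑ i, ∑ j, (‖(KM d (dinf (p 0)))⁻¹ i j‖ + 1) with hM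
  have hM0 : ∀ i j, ‖(KM d (dinf (p 0)))⁻¹ i j‖ + 1 ≤ M := by
    intro i j
    have a1 : ‖(KM d (dinf (p 0)))⁻¹ i j‖ + 1 ≤
        ∑ j, (‖(KM d (dinf (p 0)))⁻¹ i j‖ + 1) :=
      Finset.single_le_sum (f := fun j => ‖(KM d (dinf (p 0)))⁻¹ i j‖ + 1)
        (fun _ _ => by positivity) (Finset.mem_univ j)
    have a2 : ∑ j, (‖(KM d (dinf (p 0)))⁻¹ i j‖ + 1) ≤ M :=
      Finset.single_le_sum (f := fun i => ∑ j, (‖(KM d (dinf (p 0)))⁻¹ i j‖ + 1))
        (fun _ _ => Finset.sum_nonneg fun _ _ => by positivity) (Finset.mem_univ i)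
    exact a1.trans a2
  have hM1 : 0 ≤ M := Finset.sum_nonneg fun _ _ => Finset.sum_nonneg fun _ _ => by positivity
  have h3 : ∀ᶠ ν in atTop, ∀ i j, ‖(K ν)⁻¹ i j‖ ≤ M := by
    rw [eventually_all]
    intro i
    rw [eventually_all]
    intro j
    have b1 : Tendsto (fun ν => ‖(K ν)⁻¹ i j‖) atTop (𝓝 ‖(KM d (dinf (p 0)))⁻¹ i j‖) :=
      ((tendsto_pi_nhds.1 (tendsto_pi_nhds.1 h2 i)) j).norm
    filter_upwards [b1.eventually_lt_const (lt_add_one _)] with ν hν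
    exact hν.le.trans (hM0 i j)
  set l : ℕ → Fin (6 * d + 6) → ℂ := fun ν k =>
    if (k : ℕ) < 2 * d + 2 then (ν : ℂ) ^ (2 * d * (k : ℕ)) * c k else 0 with hl
  refine ⟨fun ν => Matrix.vecMul (l ν) (K ν)⁻¹, (∑ k : Fin (6 * d + 6), ‖c k‖) * M, ?_⟩
  filter_upwards [h1, h3, eventually_ge_atTop 1] with ν e1 e2 e3
  have hν : (1 : ℝ) ≤ ν := by exact_mod_cast e3
  constructor
  · intro i
    have f1 : ∀ k : Fin (6 * d + 6), ‖l ν k * (K ν)⁻¹ k i‖ ≤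
        ‖c k‖ * M * (ν : ℝ) ^ (2 * d * (d - 1)) := by
      intro k
      rw [norm_mul]
      have g1 : ‖l ν k‖ ≤ ‖c k‖ * (ν : ℝ) ^ (2 * d * (d - 1)) := by
        rw [hl]
        simp only
        split_ifs with hk
        · rw [norm_mul, norm_pow, Complex.norm_natCast, mul_comm]
          by_cases hkd : (k : ℕ) < d
          · refine mul_le_mul_of_nonneg_left ?_ (norm_nonneg _)
            refine pow_le_pow_right₀ hν ?_
            exact Nat.mul_le_mul_left _ (by omega)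
          · rw [hc _ (not_lt.1 hkd)]
            simp
        · rw [norm_zero]
          positivity
      calc ‖l ν k‖ * ‖(K ν)⁻¹ k i‖ ≤ (‖c k‖ * (ν : ℝ) ^ (2 * d * (d - 1))) * M :=
            mul_le_mul g1 (e2 k i) (norm_nonneg _) (by positivity)
        _ = _ := by ring
    have f2 : Matrix.vecMul (l ν) (K ν)⁻¹ i = ∑ k, l ν k * (K ν)⁻¹ k i := rfl
    rw [f2]
    refine (norm_sum_le _ _).trans ((Finset.sum_le_sum fun k _ => f1 k).trans (le_of_eq ?_))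
    rw [Finset.sum_mul, Finset.sum_mul]
  · intro k
    have f3 : ∑ i, Matrix.vecMul (l ν) (K ν)⁻¹ i * KM d (dl p (ν ^ (2 * d))) i k =
        Matrix.vecMul (Matrix.vecMul (l ν) (K ν)⁻¹) (K ν) k := rfl
    rw [f3, Matrix.vecMul_vecMul, Matrix.nonsing_inv_mul _ (isUnit_iff_ne_zero.2 e1),
      Matrix.vecMul_one]

end Pool.Agent.H646R3.BQT3a
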