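import Pool.Agent.H723R3.Beur.TaskD
import Pool.Agent.H434R3.BModel

set_option autoImplicit false
set_option linter.unusedSectionVars false

/-!
# The discrete Haar model of a Beurling algebra: point masses (MP_cecf91_an)
-/

namespace Pool.Agent.H646R3.BeurDelta

open MeasureTheory MeasureTheory.Measure Topology Filter
open scoped ENNReal

universe u
variable {G : Type u} [Group G] [TopologicalSpace G] [DiscreteTopology G]
  [MeasurableSpace G] [BorelSpace G]

open Beur Beur.D

section

variable (μ : Measure G) [μ.IsHaarMeasure] {ω : G → ℝ} (hω : Beur.IsWeight ω)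
include hω

lemma comb_ap (c : G →₀ ℂ) (x : G) :
    ((Finsupp.linearCombination ℂ (dl μ ω) c : L1w μ ω) : G → ℂ) x = c x * (((cc μ)⁻¹ : ℝ) : ℂ) := by
  classical
  rw [Finsupp.linearCombination_apply, Finsupp.sum, sum_ap μ hω]
  have e1 : ∀ g ∈ c.support, ((c g • dl μ ω g : L1w μ ω) : G → ℂ) x =
      if x = g then c x * (((cc μ)⁻¹ : ℝ) : ℂ) else 0 := by
    intro g _
    rw [smul_ap μ hω, dl_apply μ hω]
    by_cases hx : x = g
    · subst hx
      simp
    · rw [if_neg hx, Set.indicator_of_notMem (by simpa using hx), mul_zero]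
  rw [Finset.sum_congr rfl e1, Finset.sum_ite_eq]
  split_ifs with h
  · rfl
  · rw [Finsupp.notMem_support_iff.1 h, zero_mul]

lemma comb_norm (c : G →₀ ℂ) :
    ‖Finsupp.linearCombination ℂ (dl μ ω) c‖ = c.sum fun g z => ‖z‖ * ω g := by
  rw [L1.norm_def, lint μ hω]
  have e1 : ∀ x, μ {1} * (ENNReal.ofReal (ω x) *
      ‖((Finsupp.linearCombination ℂ (dl μ ω) c : L1w μ ω) : G → ℂ) x‖ₑ) =
      ENNReal.ofReal (‖c x‖ * ω x) := by
    intro x
    have h0 := cc_pos μ
    have h1 : μ {(1 : G)} = ENNReal.ofReal (cc μ) := (ENNReal.ofReal_toReal (mu_lt μ).ne).symm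
    rw [comb_ap μ hω, h1, ← ofReal_norm, ← ENNReal.ofReal_mul (hω.pos x).le,
      ← ENNReal.ofReal_mul h0.le, norm_mul, Complex.norm_real,
      Real.norm_of_nonneg (inv_pos.2 h0).le]
    congr 1
    field_simp
  rw [tsum_congr e1, tsum_eq_sum (s := c.support)]
  · rw [ENNReal.toReal_sum (fun _ _ => ENNReal.ofReal_ne_top), Finsupp.sum]
    refine Finset.sum_congr rfl fun x _ => ?_
    rw [ENNReal.toReal_ofReal (mul_nonneg (norm_nonneg _) (hω.pos x).le)]
  · intro x hx
    rw [Finsupp.notMem_support_iff.1 hx]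
    simp

lemma comb_dense : DenseRange (Finsupp.linearCombination ℂ (dl μ ω)) := by
  classical
  intro a
  set cT : Finset G → (G →₀ ℂ) := fun T =>
    Finsupp.onFinset T (fun g => if g ∈ T then (a : G → ℂ) g * cc μ else 0)
      (fun g hg => by
        by_contra h
        simp [h] at hg) with hcT
  have hap : ∀ (T : Finset G) (x : G),
      ((Finsupp.linearCombination ℂ (dl μ ω) (cT T) : L1w μ ω) : G → ℂ) x =
        if x ∈ T then (a : G → ℂ) x else 0 := by
    intro T x
    have hc' : (cc μ : ℂ) ≠ 0 := by exact_mod_cast (cc_pos μ).ne'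
    rw [comb_ap μ hω, hcT]
    simp only [Finsupp.onFinset_apply]
    split_ifs with h
    · push_cast
      field_simp
    · rw [zero_mul]
  have hfin : ∑' x, μ {1} * (ENNReal.ofReal (ω x) * ‖(a : G → ℂ) x‖ₑ) ≠ ∞ := by
    rw [← lint μ hω]
    exact (L1.integrable_coeFn a).2.ne
  have hlim : Tendsto (fun T => a - Finsupp.linearCombination ℂ (dl μ ω) (cT T)) atTop (𝓝 0) := by
    rw [tendsto_zero_iff_norm_tendsto_zero]
    have h1 := ENNReal.tendsto_tsum_compl_atTop_zero hfin
    have h2 := (ENNReal.tendsto_toReal ENNReal.zero_ne_top).comp h1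
    refine h2.congr fun T => ?_
    simp only [Function.comp]
    rw [L1.norm_def, lint μ hω]
    congr 1
    rw [← tsum_subtype_eq_of_support_subset (s := {x | x ∉ T})]
    · refine tsum_congr fun x => ?_
      rw [sub_ap μ hω, hap, if_neg x.2, sub_zero]
    · intro x hx
      simp only [Set.mem_ofPred_eq]
      intro hxT
      apply hx
      simp only
      rw [sub_ap μ hω, hap, if_pos hxT]
      simp
  have hlim2 : Tendsto (fun T => Finsupp.linearCombination ℂ (dl μ ω) (cT T)) atTop (𝓝 a) := by
    have := (tendsto_const_nhds (x := a)).sub hlim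
    simpa using this
  exact mem_closure_of_tendsto hlim2 (Eventually.of_forall fun T => ⟨cT T, rfl⟩)

end

theorem discrete_delta [IsTopologicalGroup G] [LocallyCompactSpace G] {w : G → ℝ}
    (hw : H434R3.Beurling.IsWeight w) {A : Type*} [NonUnitalNormedRing A] [NormedSpace ℂ A]
    (M : H434R3.Beurling.BeurlingAlgebra w A) :
    ∃ δ : G → A, (∀ g h, δ (g * h) = δ g * δ h) ∧
      (∀ c : G →₀ ℂ, ‖Finsupp.linearCombination ℂ δ c‖ = c.sum fun g z => ‖z‖ * w g) ∧
      DenseRange (Finsupp.linearCombination ℂ δ) := by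
  classical
  have hω : Beur.IsWeight w := ⟨hw.cont, hw.pos, hw.submul, hw.one⟩
  set μ : Measure G := haar with hμ
  let ι : A ≃ₗᵢ[ℂ] L1w μ w := M.ι
  let δ : G → A := fun g => ι.symm (dl μ w g)
  have hcomb : ∀ c : G →₀ ℂ, Finsupp.linearCombination ℂ δ c =
      ι.symm (Finsupp.linearCombination ℂ (dl μ w) c) := by
    intro c
    rw [Finsupp.linearCombination_apply, Finsupp.linearCombination_apply, Finsupp.sum, Finsupp.sum,
      _root_.map_sum]
    refine Finset.sum_congr rfl fun g _ => ?_
    rw [_root_.map_smul]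
  refine ⟨δ, ?_, ?_, ?_⟩
  · intro g h
    set f : G → G → ℂ := fun g => ({g} : Set G).indicator (fun _ => (((cc μ)⁻¹ : ℝ) : ℂ)) with hf
    have hfi : ∀ g, Integrable (f g) (nu μ w) := fun g =>
      (integrable_indicator_iff (set_meas _)).2 (integrableOn_const (nu_sing_ne μ w g) (by simp))
    have hdl : ∀ g, dl μ w g = (hfi g).toL1 (f g) := by
      intro g
      refine L1_ext μ hω fun x => ?_
      rw [dl_apply μ hω]
      exact (ae_nu μ hω (hfi g).coeFn_toL1 x).symm
    obtain ⟨h1, h2⟩ := M.conv (f g) (f h) (hfi g) (hfi h)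
    have h3 : (fun s => ∫ t, f g t * f h (t⁻¹ * s) ∂(haar : Measure G)) = f (g * h) := by
      funext x
      have e1 : ∀ y, f g y * f h (y⁻¹ * x) =
          ({g} : Set G).indicator (fun y => (((cc μ)⁻¹ : ℝ) : ℂ) * f h (y⁻¹ * x)) y := by
        intro y
        rw [hf]
        simp only
        by_cases hy : y ∈ ({g} : Set G)
        · rw [Set.indicator_of_mem hy, Set.indicator_of_mem hy]
        · rw [Set.indicator_of_notMem hy, Set.indicator_of_notMem hy, zero_mul]
      simp_rw [e1]
      rw [integral_indicator (set_meas _), integral_singleton, Measure.real, mu_sing]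
      have hc := (cc_pos μ).ne'
      have hc' : (cc μ : ℂ) ≠ 0 := by exact_mod_cast hc
      change (cc μ) • _ = _
      rw [hf]
      simp only
      by_cases hx : x = g * h
      · subst hx
        simp only [inv_mul_cancel_left, Set.mem_singleton_iff, Set.indicator_of_mem,
          Complex.real_smul]
        push_cast
        field_simp
      · have hx2 : g⁻¹ * x ∉ ({h} : Set G) := by
          simp only [Set.mem_singleton_iff]
          intro h0
          apply hx
          rw [← h0]
          simp
        have hx3 : x ∉ ({g * h} : Set G) := by simpa using hx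
        rw [Set.indicator_of_notMem hx2, Set.indicator_of_notMem hx3]
        simp
    have h4 : h1.toL1 _ = (hfi (g * h)).toL1 (f (g * h)) := by
      congr 1
    show ι.symm (dl μ w (g * h)) = ι.symm (dl μ w g) * ι.symm (dl μ w h)
    rw [hdl g, hdl h, hdl (g * h)]
    refine Eq.trans ?_ h2.symm
    rw [h4]
    rfl
  · intro c
    rw [hcomb, ← comb_norm μ hω c]
    exact ι.symm.norm_map _
  · have h5 : (Finsupp.linearCombination ℂ δ : (G →₀ ℂ) → A) =
        ι.symm ∘ (Finsupp.linearCombination ℂ (dl μ w)) := funext hcomb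
    rw [h5]
    exact ι.symm.surjective.denseRange.comp (comb_dense μ hω) ι.symm.continuous

end Pool.Agent.H646R3.BeurDelta
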